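import Mathlib

set_option autoImplicit false

namespace Pool.Agent.Results.MP_7d5f0f_co.FormGSufficient

open Finset

/-- `m ∈ S(n,l)`: `m` is the size of a maximal antichain of the Boolean lattice `B_n` all of whose
members have `l` or `l+1` elements. -/
def InS (n l : ℕ) (m : ℤ) : Prop :=
  ∃ 𝒜 : Finset (Finset (Fin n)),
    IsAntichain (· ⊆ ·) (𝒜 : Set (Finset (Fin n))) ∧
    (∀ X : Finset (Fin n), X ∉ 𝒜 → ∃ A ∈ 𝒜, A ⊆ X ∨ X ⊆ A) ∧
    (∀ A ∈ 𝒜, A.card = l ∨ A.card = l + 1) ∧ (𝒜.card : ℤ) = m

/-! ### Graphs given by their edge sets -/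

section Graph

variable {n : ℕ}

/-- degree -/
def dg (E : Finset (Finset (Fin n))) (v : Fin n) : ℕ :=
  (univ.filter (fun w => w ≠ v ∧ ({v, w} : Finset (Fin n)) ∈ E)).card

/-- independent triples -/
def I3 (E : Finset (Finset (Fin n))) : Finset (Finset (Fin n)) :=
  (powersetCard 3 univ).filter (fun T => ∀ e ∈ E, ¬ e ⊆ T)

/-- no triangles -/
def TriFree (E : Finset (Finset (Fin n))) : Prop :=
  ∀ u v w : Fin n, u ≠ v → v ≠ w → u ≠ w → ({u, v} : Finset (Fin n)) ∈ E →
    ({v, w} : Finset (Fin n)) ∈ E → ({u, w} : Finset (Fin n)) ∈ E → False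

lemma pair_eq_pair {a b c d : Fin n} (h : ({a, b} : Finset (Fin n)) = {c, d}) :
    (a = c ∧ b = d) ∨ (a = d ∧ b = c) := by
  have ha : a ∈ ({c, d} : Finset (Fin n)) := by rw [← h]; simp
  have hb : b ∈ ({c, d} : Finset (Fin n)) := by rw [← h]; simp
  have hc : c ∈ ({a, b} : Finset (Fin n)) := by rw [h]; simp
  have hd : d ∈ ({a, b} : Finset (Fin n)) := by rw [h]; simp
  simp only [mem_insert, mem_singleton] at ha hb hc hd
  rcases ha with ha | ha
  · rcases hd with hd | hd
    · rcases hb with hb | hb
      · exact Or.inl ⟨ha, by rw [hb, ← ha, hd]⟩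
      · exact Or.inl ⟨ha, hb⟩
    · exact Or.inl ⟨ha, hd.symm⟩
  · rcases hc with hc | hc
    · rcases hb with hb | hb
      · exact Or.inr ⟨ha, hb⟩
      · exact Or.inr ⟨ha, by rw [hb, ← ha, hc]⟩
    · exact Or.inr ⟨ha, hc.symm⟩

lemma dg_insert (E : Finset (Finset (Fin n))) (u v z : Fin n) (huv : u ≠ v)
    (h : ({u, v} : Finset (Fin n)) ∉ E) :
    dg (insert {u, v} E) z = dg E z + (if z = u ∨ z = v then 1 else 0) := by
  unfold dg
  by_cases hz : z = u ∨ z = v
  · rw [if_pos hz]
    -- the other end
    obtain ⟨w, hw, hw1, hw2⟩ : ∃ w, w ≠ z ∧ ({z, w} : Finset (Fin n)) = {u, v} ∧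
        ∀ x, ({z, x} : Finset (Fin n)) = {u, v} → x = w := by
      rcases hz with rfl | rfl
      · refine ⟨v, huv.symm, rfl, fun x hx => ?_⟩
        rcases pair_eq_pair hx with ⟨_, h2⟩ | ⟨h1, h2⟩
        · exact h2
        · exact absurd h1 huv
      · refine ⟨u, huv, pair_comm _ _, fun x hx => ?_⟩
        rcases pair_eq_pair hx with ⟨h1, h2⟩ | ⟨_, h2⟩
        · exact absurd h1.symm huv
        · exact h2
    have : univ.filter (fun x => x ≠ z ∧ ({z, x} : Finset (Fin n)) ∈ insert {u, v} E) =
        insert w (univ.filter (fun x => x ≠ z ∧ ({z, x} : Finset (Fin n)) ∈ E)) := by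
      ext x
      simp only [mem_filter, mem_univ, true_and, mem_insert]
      constructor
      · rintro ⟨h1, h2 | h2⟩
        · exact Or.inl (hw2 x h2)
        · exact Or.inr ⟨h1, h2⟩
      · rintro (rfl | ⟨h1, h2⟩)
        · exact ⟨hw, Or.inl hw1⟩
        · exact ⟨h1, Or.inr h2⟩
    rw [this, card_insert_of_notMem]
    simp only [mem_filter, mem_univ, true_and, not_and]
    intro _
    rw [hw1]; exact h
  · rw [if_neg hz, add_zero]
    congr 1
    ext x
    simp only [mem_filter, mem_univ, true_and, mem_insert]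
    constructor
    · rintro ⟨h1, h2 | h2⟩
      · exfalso
        rcases pair_eq_pair h2 with ⟨h3, _⟩ | ⟨h3, _⟩
        · exact hz (Or.inl h3)
        · exact hz (Or.inr h3)
      · exact ⟨h1, h2⟩
    · rintro ⟨h1, h2⟩; exact ⟨h1, Or.inr h2⟩

/-- number of independent triples destroyed by a new edge -/
lemma card_destroyed (E : Finset (Finset (Fin n))) (hE2 : ∀ e ∈ E, e.card = 2)
    (u v : Fin n) (huv : u ≠ v)
    (h : ({u, v} : Finset (Fin n)) ∉ E) (hT : TriFree (insert {u, v} E)) :
    ((I3 E).filter (fun T => ({u, v} : Finset (Fin n)) ⊆ T)).card + dg E u + dg E v + 2 = n := by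
  set W : Finset (Fin n) := univ.filter (fun w => w ≠ u ∧ w ≠ v ∧
    ({u, w} : Finset (Fin n)) ∉ E ∧ ({v, w} : Finset (Fin n)) ∉ E) with hW
  have h1 : ((I3 E).filter (fun T => ({u, v} : Finset (Fin n)) ⊆ T)).card = W.card := by
    symm
    refine card_bij (fun w _ => ({u, v, w} : Finset (Fin n))) ?_ ?_ ?_
    · intro w hw
      simp only [hW, mem_filter, mem_univ, true_and] at hw
      obtain ⟨w1, w2, w3, w4⟩ := hw
      simp only [I3, mem_filter, mem_powersetCard]
      refine ⟨⟨⟨subset_univ _, ?_⟩, ?_⟩, ?_⟩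
      · rw [card_eq_three]; exact ⟨u, v, w, huv, Ne.symm w1, Ne.symm w2, rfl⟩
      · intro e he hsub
        obtain ⟨x, y, hxy, rfl⟩ := card_eq_two.1 (hE2 e he)
        have hx : x ∈ ({u, v, w} : Finset (Fin n)) := hsub (by simp)
        have hy : y ∈ ({u, v, w} : Finset (Fin n)) := hsub (by simp)
        simp only [mem_insert, mem_singleton] at hx hy
        rcases hx with rfl | rfl | rfl <;> rcases hy with rfl | rfl | rfl
        · exact hxy rfl
        · exact h he
        · exact w3 he
        · rw [pair_comm] at he; exact h he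
        · exact hxy rfl
        · exact w4 he
        · rw [pair_comm] at he; exact w3 he
        · rw [pair_comm] at he; exact w4 he
        · exact hxy rfl
      · intro x hx
        simp only [mem_insert, mem_singleton] at hx ⊢
        tauto
    · intro w hw w' hw' heq
      simp only [hW, mem_filter, mem_univ, true_and] at hw hw'
      have : w ∈ ({u, v, w'} : Finset (Fin n)) := by
        rw [← heq]; simp
      simp only [mem_insert, mem_singleton] at this
      rcases this with h | h | h
      · exact absurd h hw.1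
      · exact absurd h hw.2.1
      · exact h
    · intro T hT
      simp only [I3, mem_filter, mem_powersetCard] at hT
      obtain ⟨⟨⟨-, h3⟩, h4⟩, h5⟩ := hT
      have hu : u ∈ T := h5 (by simp)
      have hv : v ∈ T := h5 (by simp)
      obtain ⟨w, hw⟩ : ∃ w, T \ {u, v} = {w} := by
        rw [← card_eq_one, card_sdiff_of_subset h5, h3, card_pair huv]
      have hwT : w ∈ T \ {u, v} := by rw [hw]; simp
      simp only [mem_sdiff, mem_insert, mem_singleton, not_or] at hwT
      refine ⟨w, ?_, ?_⟩
      · simp only [hW, mem_filter, mem_univ, true_and]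
        refine ⟨hwT.2.1, hwT.2.2, fun he => h4 _ he ?_, fun he => h4 _ he ?_⟩
        · intro x hx
          simp only [mem_insert, mem_singleton] at hx
          rcases hx with rfl | rfl
          · exact hu
          · exact hwT.1
        · intro x hx
          simp only [mem_insert, mem_singleton] at hx
          rcases hx with rfl | rfl
          · exact hv
          · exact hwT.1
      · ext x
        have hx : x ∈ T \ {u, v} ↔ x = w := by rw [hw]; simp
        simp only [mem_sdiff, mem_insert, mem_singleton, not_or] at hx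
        simp only [mem_insert, mem_singleton]
        constructor
        · rintro (rfl | rfl | rfl)
          · exact hu
          · exact hv
          · exact hwT.1
        · intro hxT
          by_cases h1 : x = u
          · exact Or.inl h1
          · by_cases h2 : x = v
            · exact Or.inr (Or.inl h2)
            · exact Or.inr (Or.inr (hx.1 ⟨hxT, h1, h2⟩))
  have hpart : (univ : Finset (Fin n)) = W ∪ (univ.filter
      (fun w => w ≠ u ∧ ({u, w} : Finset (Fin n)) ∈ E)) ∪ (univ.filter
      (fun w => w ≠ v ∧ ({v, w} : Finset (Fin n)) ∈ E)) ∪ {u, v} := by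
    ext x
    simp only [hW, mem_univ, mem_union, mem_filter, true_and, mem_insert, mem_singleton, true_iff]
    tauto
  have d1 : Disjoint W (univ.filter (fun w => w ≠ u ∧ ({u, w} : Finset (Fin n)) ∈ E)) := by
    rw [disjoint_left]
    intro x hx hx'
    simp only [hW, mem_filter, mem_univ, true_and] at hx hx'
    exact hx.2.2.1 hx'.2
  have d2 : Disjoint (W ∪ (univ.filter (fun w => w ≠ u ∧ ({u, w} : Finset (Fin n)) ∈ E)))
      (univ.filter (fun w => w ≠ v ∧ ({v, w} : Finset (Fin n)) ∈ E)) := by
    rw [disjoint_left]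
    intro x hx hx'
    simp only [hW, mem_union, mem_filter, mem_univ, true_and] at hx hx'
    rcases hx with hx | hx
    · exact hx.2.2.2 hx'.2
    · exact hT u v x huv (Ne.symm hx'.1) (Ne.symm hx.1) (mem_insert_self _ _)
        (mem_insert_of_mem hx'.2) (mem_insert_of_mem hx.2)
  have d3 : Disjoint (W ∪ (univ.filter (fun w => w ≠ u ∧ ({u, w} : Finset (Fin n)) ∈ E)) ∪
      (univ.filter (fun w => w ≠ v ∧ ({v, w} : Finset (Fin n)) ∈ E))) {u, v} := by
    rw [disjoint_left]
    intro x hx hx'
    simp only [hW, mem_union, mem_filter, mem_univ, true_and] at hx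
    simp only [mem_insert, mem_singleton] at hx'
    rcases hx' with rfl | rfl
    · rcases hx with (hx | hx) | hx
      · exact hx.1 rfl
      · exact hx.1 rfl
      · rw [pair_comm] at hx; exact h hx.2
    · rcases hx with (hx | hx) | hx
      · exact hx.2.1 rfl
      · exact h hx.2
      · exact hx.1 rfl
  have hc := congrArg Finset.card hpart
  rw [card_union_of_disjoint d3, card_union_of_disjoint d2, card_union_of_disjoint d1,
    card_pair huv, card_univ, Fintype.card_fin] at hc
  rw [h1]
  unfold dg
  omega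

lemma I3_insert (E : Finset (Finset (Fin n))) (e : Finset (Fin n)) :
    (I3 (insert e E)).card + ((I3 E).filter (fun T => e ⊆ T)).card = (I3 E).card := by
  have : I3 (insert e E) = (I3 E).filter (fun T => ¬ e ⊆ T) := by
    ext T
    simp only [I3, mem_filter, mem_insert, forall_eq_or_imp]
    tauto
  rw [this, add_comm]
  exact card_filter_add_card_filter_not _

/-- the main counting formula -/
lemma card_I3 (E : Finset (Finset (Fin n))) : (∀ e ∈ E, e.card = 2) → TriFree E →
    (I3 E).card + n * E.card = n.choose 3 + 2 * E.card + ∑ v, (dg E v).choose 2 := by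
  induction E using Finset.induction_on with
  | empty =>
    intro _ _
    have h1 : I3 (∅ : Finset (Finset (Fin n))) = powersetCard 3 univ := by
      ext T; simp [I3]
    have h2 : ∀ v : Fin n, dg (∅ : Finset (Finset (Fin n))) v = 0 := by
      intro v; simp [dg]
    rw [h1, card_powersetCard]
    simp [h2]
  | insert e E he ih =>
    intro hE hT
    obtain ⟨u, v, huv, rfl⟩ := card_eq_two.1 (hE e (mem_insert_self _ _))
    have hE' : ∀ e ∈ E, e.card = 2 := fun e he => hE e (mem_insert_of_mem he)
    have hT' : TriFree E := fun a b c h1 h2 h3 h4 h5 h6 =>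
      hT a b c h1 h2 h3 (mem_insert_of_mem h4) (mem_insert_of_mem h5) (mem_insert_of_mem h6)
    have ih' := ih hE' hT'
    have h1 := card_destroyed E hE' u v huv he hT
    have h2 := I3_insert E {u, v}
    have h3 : ∑ z, (dg (insert {u, v} E) z).choose 2 =
        ∑ z, (dg E z).choose 2 + dg E u + dg E v := by
      have : ∀ z, (dg (insert {u, v} E) z).choose 2 = (dg E z).choose 2 +
          ((if z = u then dg E z else 0) + (if z = v then dg E z else 0)) := by
        intro z
        rw [dg_insert E u v z huv he]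
        by_cases hzu : z = u
        · subst hzu
          simp only [true_or, if_true, if_neg huv, add_zero]
          rw [Nat.choose_succ_succ' (dg E z) 1]
          simp [add_comm]
        · by_cases hzv : z = v
          · subst hzv
            simp only [or_true, if_true, if_neg hzu, zero_add]
            rw [Nat.choose_succ_succ' (dg E z) 1]
            simp [add_comm]
          · simp [hzu, hzv]
      simp_rw [this]
      rw [sum_add_distrib, sum_add_distrib]
      simp [add_assoc]
    rw [card_insert_of_notMem he, h3]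
    have h4 : n * (E.card + 1) = n * E.card + n := by ring
    rw [h4]
    omega

/-- every non-edge lies in an independent triple -/
def Extends (E : Finset (Finset (Fin n))) : Prop :=
  ∀ u v : Fin n, u ≠ v → ({u, v} : Finset (Fin n)) ∉ E →
    ∃ w, w ≠ u ∧ w ≠ v ∧ ({u, w} : Finset (Fin n)) ∉ E ∧ ({v, w} : Finset (Fin n)) ∉ E

lemma inS_of_graph (hn : 2 ≤ n) (E : Finset (Finset (Fin n))) (hE : ∀ e ∈ E, e.card = 2)
    (hT : TriFree E) (hX : Extends E) :
    InS n 2 ((n.choose 3 : ℤ) - ((n : ℤ) - 3) * E.card + ∑ v, ((dg E v).choose 2 : ℤ)) := by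
  have hI : ∀ T ∈ I3 E, T.card = 3 := by
    intro T hT; simp only [I3, mem_filter, mem_powersetCard] at hT; exact hT.1.2
  have hdisj : Disjoint E (I3 E) := by
    rw [disjoint_left]; intro e he he'
    have := hE e he; have := hI e he'; omega
  -- pairs are comparable
  have hpair : ∀ u v : Fin n, u ≠ v → ∃ A ∈ E ∪ I3 E, ({u, v} : Finset (Fin n)) ⊆ A := by
    intro u v huv
    by_cases he : ({u, v} : Finset (Fin n)) ∈ E
    · exact ⟨_, mem_union_left _ he, Subset.refl _⟩
    · obtain ⟨w, w1, w2, w3, w4⟩ := hX u v huv he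
      refine ⟨{u, v, w}, mem_union_right _ ?_, ?_⟩
      · simp only [I3, mem_filter, mem_powersetCard]
        refine ⟨⟨subset_univ _, ?_⟩, ?_⟩
        · rw [card_eq_three]; exact ⟨u, v, w, huv, Ne.symm w1, Ne.symm w2, rfl⟩
        · intro e he' hsub
          obtain ⟨x, y, hxy, rfl⟩ := card_eq_two.1 (hE e he')
          have hx : x ∈ ({u, v, w} : Finset (Fin n)) := hsub (by simp)
          have hy : y ∈ ({u, v, w} : Finset (Fin n)) := hsub (by simp)
          simp only [mem_insert, mem_singleton] at hx hy
          rcases hx with rfl | rfl | rfl <;> rcases hy with rfl | rfl | rfl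
          · exact hxy rfl
          · exact he he'
          · exact w3 he'
          · rw [pair_comm] at he'; exact he he'
          · exact hxy rfl
          · exact w4 he'
          · rw [pair_comm] at he'; exact w3 he'
          · rw [pair_comm] at he'; exact w4 he'
          · exact hxy rfl
      · intro x hx
        simp only [mem_insert, mem_singleton] at hx ⊢
        tauto
  refine ⟨E ∪ I3 E, ?_, ?_, ?_, ?_⟩
  · intro A hA B hB hne hsub
    simp only [coe_union, Set.mem_union, mem_coe] at hA hB
    rcases hA with hA | hA <;> rcases hB with hB | hB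
    · exact hne (eq_of_subset_of_card_le hsub (by rw [hE A hA, hE B hB]))
    · simp only [I3, mem_filter] at hB
      exact hB.2 A hA hsub
    · have := card_le_card hsub
      rw [hI A hA, hE B hB] at this
      omega
    · exact hne (eq_of_subset_of_card_le hsub (by rw [hI A hA, hI B hB]))
  · intro X hX'
    rcases Nat.lt_or_ge X.card 3 with hc | hc
    · -- X is contained in a pair
      obtain ⟨u, v, huv, hsub⟩ : ∃ u v : Fin n, u ≠ v ∧ X ⊆ {u, v} := by
        obtain ⟨Y, h1, h2⟩ := exists_superset_card_eq (s := X) (n := 2) (by omega)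
          (by simpa using hn)
        obtain ⟨u, v, huv, rfl⟩ := card_eq_two.1 h2
        exact ⟨u, v, huv, h1⟩
      obtain ⟨A, hA, hA'⟩ := hpair u v huv
      exact ⟨A, hA, Or.inr (hsub.trans hA')⟩
    · by_cases h : ∃ e ∈ E, e ⊆ X
      · obtain ⟨e, he, he'⟩ := h
        exact ⟨e, mem_union_left _ he, Or.inl he'⟩
      · push Not at h
        obtain ⟨T, hT1, hT2⟩ := exists_subset_card_eq hc
        refine ⟨T, mem_union_right _ ?_, Or.inl hT1⟩
        simp only [I3, mem_filter, mem_powersetCard]
        exact ⟨⟨subset_univ _, hT2⟩, fun e he hsub => h e he (hsub.trans hT1)⟩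
  · intro A hA
    rcases mem_union.1 hA with hA | hA
    · exact Or.inl (hE A hA)
    · exact Or.inr (hI A hA)
  · rw [card_union_of_disjoint hdisj]
    have := card_I3 E hE hT
    have h2 : ((I3 E).card : ℤ) + n * E.card = n.choose 3 + 2 * E.card +
        ∑ v, ((dg E v).choose 2 : ℤ) := by exact_mod_cast this
    push_cast
    linarith

end Graph

/-! ### Edge sets from relations on labels -/

section Rel

variable {n : ℕ}

lemma card_interval (lo hi : ℕ) (h : hi ≤ n) :
    (univ.filter (fun w : Fin n => lo ≤ w.val ∧ w.val < hi)).card = hi - lo := by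
  have : (univ.filter (fun w : Fin n => lo ≤ w.val ∧ w.val < hi)).map Fin.valEmbedding =
      Finset.Ico lo hi := by
    ext x
    simp only [mem_map, mem_filter, mem_univ, true_and, Fin.valEmbedding_apply, mem_Ico]
    constructor
    · rintro ⟨w, hw, rfl⟩; exact hw
    · rintro ⟨h1, h2⟩; exact ⟨⟨x, by omega⟩, ⟨h1, h2⟩, rfl⟩
  rw [← card_map Fin.valEmbedding, this, Nat.card_Ico]

variable (B : ℕ → ℕ → Prop) [DecidableRel B]

/-- edge set of the relation -/
def EB (n : ℕ) (B : ℕ → ℕ → Prop) [DecidableRel B] : Finset (Finset (Fin n)) :=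
  (univ.filter (fun q : Fin n × Fin n => B q.1 q.2)).image (fun q => {q.1, q.2})

lemma mem_EB (u v : Fin n) : ({u, v} : Finset (Fin n)) ∈ EB n B ↔ (B u v ∨ B v u) := by
  unfold EB
  simp only [mem_image, mem_filter, mem_univ, true_and, Prod.exists]
  constructor
  · rintro ⟨x, y, h, he⟩
    rcases pair_eq_pair he with ⟨rfl, rfl⟩ | ⟨rfl, rfl⟩
    · exact Or.inl h
    · exact Or.inr h
  · rintro (h | h)
    · exact ⟨u, v, h, rfl⟩
    · exact ⟨v, u, h, pair_comm _ _⟩

lemma EB_card2 (hir : ∀ i, ¬ B i i) : ∀ e ∈ EB n B, e.card = 2 := by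
  intro e he
  unfold EB at he
  simp only [mem_image, mem_filter, mem_univ, true_and, Prod.exists] at he
  obtain ⟨x, y, h, rfl⟩ := he
  exact card_pair (fun h' => hir x (by rw [← h'] at h; exact h))

lemma card_EB (has : ∀ i j, B i j → ¬ B j i) :
    (EB n B).card = ∑ u : Fin n, (univ.filter (fun v : Fin n => B u v)).card := by
  unfold EB
  rw [card_image_of_injOn]
  · rw [card_filter, Fintype.sum_prod_type]
    refine sum_congr rfl (fun u _ => ?_)
    rw [card_filter]
  · intro q hq q' hq' heq
    simp only [coe_filter, mem_univ, true_and, Set.mem_ofPred_eq] at hq hq'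
    rcases pair_eq_pair heq with ⟨h1, h2⟩ | ⟨h1, h2⟩
    · exact Prod.ext h1 h2
    · exfalso
      rw [h1, h2] at hq
      exact has _ _ hq' hq

lemma dg_EB (v : Fin n) : dg (EB n B) v =
    (univ.filter (fun w : Fin n => w ≠ v ∧ (B v w ∨ B w v))).card := by
  unfold dg
  congr 1
  ext w
  simp only [mem_filter, mem_univ, true_and, mem_EB]

end Rel

/-! ### Two stars and a matching -/

section Stars

/-- the relation of the graph: star at `0` with leaves `1..a`, star at `n-1` with leaves
`a-c+1..a-c+b`, and `z` further independent edges -/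
def BA (n a b c z i j : ℕ) : Prop :=
  (i = 0 ∧ 1 ≤ j ∧ j ≤ a) ∨ (i = n - 1 ∧ a - c + 1 ≤ j ∧ j ≤ a - c + b) ∨
    (a + b - c + 1 ≤ i ∧ i < a + b - c + 1 + z ∧ j = i + z)

instance (n a b c z : ℕ) : DecidableRel (BA n a b c z) := by
  intro i j; unfold BA; infer_instance

variable {n a b c z : ℕ}

lemma sum_BA (hn : 7 ≤ n) (hba : b ≤ a) (hcb : c ≤ b)
    (h1 : 1 ≤ b → a + b - c + 1 + 2 * z + 1 ≤ n) (h0 : b = 0 → a + 1 + 2 * z ≤ n) :
    ∑ v : Fin n, ((dg (EB n (BA n a b c z)) v).choose 2) = a.choose 2 + b.choose 2 + c := by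
  have key : ∀ v : Fin n, (dg (EB n (BA n a b c z)) v).choose 2 =
      (if v = ⟨0, by omega⟩ then a.choose 2 else 0) +
      ((if v = ⟨n - 1, by omega⟩ then b.choose 2 else 0) +
      (if a - c + 1 ≤ v.val ∧ v.val < a + 1 then 1 else 0)) := by
    intro v
    rw [dg_EB]
    by_cases hv0 : v.val = 0
    · have e1 : v = ⟨0, by omega⟩ := Fin.ext hv0
      have e2 : v ≠ ⟨n - 1, by omega⟩ := fun h => by
        have := congrArg Fin.val h; simp only at this; omega
      rw [if_pos e1, if_neg e2, if_neg (by omega)]
      have : univ.filter (fun w : Fin n => w ≠ v ∧ (BA n a b c z v w ∨ BA n a b c z w v)) =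
          univ.filter (fun w : Fin n => 1 ≤ w.val ∧ w.val < a + 1) := by
        ext w
        simp only [mem_filter, mem_univ, true_and]
        simp only [BA]
        have := w.isLt
        constructor
        · rintro ⟨h, h'⟩
          have : w.val ≠ v.val := fun h'' => h (Fin.ext h'')
          omega
        · intro h
          refine ⟨fun h' => ?_, ?_⟩
          · rw [h'] at h; omega
          · left; left; omega
      rw [this, card_interval 1 (a + 1) (by omega)]
      simp
    · have e1 : v ≠ ⟨0, by omega⟩ := fun h => hv0 (by rw [h])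
      rw [if_neg e1]
      by_cases hvn : v.val = n - 1
      · have e2 : v = ⟨n - 1, by omega⟩ := Fin.ext hvn
        rw [if_pos e2]
        by_cases hb : b = 0
        · have hc : c = 0 := by omega
          rw [if_neg (by omega), hb]
          have hle : (univ.filter (fun w : Fin n => w ≠ v ∧
              (BA n a 0 c z v w ∨ BA n a 0 c z w v))).card ≤ 1 := by
            rw [card_le_one]
            intro x hx y hy
            simp only [mem_filter, mem_univ, true_and] at hx hy
            simp only [BA] at hx hy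
            have := x.isLt
            have := y.isLt
            refine Fin.ext ?_
            have h0 := h0 hb
            omega
          simp only [Nat.choose_zero_succ, add_zero]
          interval_cases hq : (univ.filter (fun w : Fin n => w ≠ v ∧
              (BA n a 0 c z v w ∨ BA n a 0 c z w v))).card
          · simp
          · simp
        · have h1 := h1 (by omega)
          rw [if_neg (by omega)]
          have : univ.filter (fun w : Fin n => w ≠ v ∧ (BA n a b c z v w ∨ BA n a b c z w v)) =
              univ.filter (fun w : Fin n => a - c + 1 ≤ w.val ∧ w.val < a - c + b + 1) := by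
            ext w
            simp only [mem_filter, mem_univ, true_and]
            simp only [BA]
            have := w.isLt
            constructor
            · rintro ⟨h, h'⟩
              have : w.val ≠ v.val := fun h'' => h (Fin.ext h'')
              omega
            · intro h
              refine ⟨fun h' => ?_, ?_⟩
              · rw [h'] at h; omega
              · left; right; left; omega
          rw [this, card_interval (a - c + 1) (a - c + b + 1) (by omega)]
          have : a - c + b + 1 - (a - c + 1) = b := by omega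
          rw [this]; simp
      · have e2 : v ≠ ⟨n - 1, by omega⟩ := fun h => hvn (by rw [h])
        rw [if_neg e2]
        by_cases hvc : a - c + 1 ≤ v.val ∧ v.val < a + 1
        · rw [if_pos hvc]
          have hb : 1 ≤ b := by omega
          have h1 := h1 hb
          have : univ.filter (fun w : Fin n => w ≠ v ∧ (BA n a b c z v w ∨ BA n a b c z w v)) =
              {⟨0, by omega⟩, ⟨n - 1, by omega⟩} := by
            ext w
            simp only [mem_filter, mem_univ, true_and, mem_insert, mem_singleton, Fin.ext_iff]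
            simp only [BA]
            have := w.isLt
            constructor
            · rintro ⟨h, h'⟩
              omega
            · rintro (h | h)
              · refine ⟨by omega, ?_⟩
                right; left; omega
              · refine ⟨by omega, ?_⟩
                right; right; left; omega
          rw [this, card_pair (by simp only [ne_eq, Fin.mk.injEq]; omega)]
          simp
        · rw [if_neg hvc]
          have hle : (univ.filter (fun w : Fin n => w ≠ v ∧
              (BA n a b c z v w ∨ BA n a b c z w v))).card ≤ 1 := by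
            rw [card_le_one]
            intro x hx y hy
            simp only [mem_filter, mem_univ, true_and] at hx hy
            simp only [BA] at hx hy
            have := x.isLt
            have := y.isLt
            have := v.isLt
            refine Fin.ext ?_
            rcases Nat.eq_zero_or_pos b with hb | hb
            · have h0 := h0 hb
              omega
            · have h1 := h1 hb
              omega
          interval_cases hq : (univ.filter (fun w : Fin n => w ≠ v ∧
              (BA n a b c z v w ∨ BA n a b c z w v))).card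
          · simp
          · simp
  simp_rw [key]
  rw [sum_add_distrib, sum_add_distrib, sum_ite_eq', sum_ite_eq', ← card_filter,
    card_interval (a - c + 1) (a + 1) (by
      rcases Nat.eq_zero_or_pos b with hb | hb
      · have h0 := h0 hb; omega
      · have h1 := h1 hb; omega)]
  simp only [mem_univ, if_true]
  omega

lemma card_BA (hn : 7 ≤ n) (hba : b ≤ a) (hcb : c ≤ b)
    (h1 : 1 ≤ b → a + b - c + 1 + 2 * z + 1 ≤ n) (h0 : b = 0 → a + 1 + 2 * z ≤ n) :
    (EB n (BA n a b c z)).card = a + b + z := by
  rw [card_EB]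
  · have key : ∀ u : Fin n, (univ.filter (fun v : Fin n => BA n a b c z u v)).card =
        (if u = ⟨0, by omega⟩ then a else 0) +
        ((if u = ⟨n - 1, by omega⟩ then b else 0) +
        (if a + b - c + 1 ≤ u.val ∧ u.val < a + b - c + 1 + z then 1 else 0)) := by
      intro u
      by_cases hu0 : u.val = 0
      · have e1 : u = ⟨0, by omega⟩ := Fin.ext hu0
        have e2 : u ≠ ⟨n - 1, by omega⟩ := fun h => by
          have := congrArg Fin.val h; simp only at this; omega
        rw [if_pos e1, if_neg e2, if_neg (by omega)]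
        have : univ.filter (fun w : Fin n => BA n a b c z u w) =
            univ.filter (fun w : Fin n => 1 ≤ w.val ∧ w.val < a + 1) := by
          ext w
          simp only [mem_filter, mem_univ, true_and]
          simp only [BA]
          have := w.isLt
          omega
        rw [this, card_interval 1 (a + 1) (by
          rcases Nat.eq_zero_or_pos b with hb | hb
          · have h0 := h0 hb; omega
          · have h1 := h1 hb; omega)]
        simp
      · have e1 : u ≠ ⟨0, by omega⟩ := fun h => hu0 (by rw [h])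
        rw [if_neg e1]
        by_cases hun : u.val = n - 1
        · have e2 : u = ⟨n - 1, by omega⟩ := Fin.ext hun
          rw [if_pos e2, if_neg (by
            rcases Nat.eq_zero_or_pos b with hb | hb
            · have h0 := h0 hb; omega
            · have h1 := h1 hb; omega)]
          have : univ.filter (fun w : Fin n => BA n a b c z u w) =
              univ.filter (fun w : Fin n => a - c + 1 ≤ w.val ∧ w.val < a - c + b + 1) := by
            ext w
            simp only [mem_filter, mem_univ, true_and]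
            simp only [BA]
            have := w.isLt
            omega
          rw [this, card_interval (a - c + 1) (a - c + b + 1) (by
            rcases Nat.eq_zero_or_pos b with hb | hb
            · have h0 := h0 hb; omega
            · have h1 := h1 hb; omega)]
          have : a - c + b + 1 - (a - c + 1) = b := by omega
          rw [this]; simp
        · have e2 : u ≠ ⟨n - 1, by omega⟩ := fun h => hun (by rw [h])
          rw [if_neg e2]
          by_cases hz : a + b - c + 1 ≤ u.val ∧ u.val < a + b - c + 1 + z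
          · rw [if_pos hz]
            have hlt : u.val + z < n := by
              rcases Nat.eq_zero_or_pos b with hb | hb
              · have h0 := h0 hb; omega
              · have h1 := h1 hb; omega
            have : univ.filter (fun w : Fin n => BA n a b c z u w) = {⟨u.val + z, hlt⟩} := by
              ext w
              simp only [mem_filter, mem_univ, true_and, mem_singleton, Fin.ext_iff]
              simp only [BA]
              have := w.isLt
              omega
            rw [this]; simp
          · rw [if_neg hz]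
            have : univ.filter (fun w : Fin n => BA n a b c z u w) = ∅ := by
              ext w
              simp only [mem_filter, mem_univ, true_and, notMem_empty, iff_false]
              simp only [BA]
              omega
            rw [this]; simp
    simp_rw [key]
    rw [sum_add_distrib, sum_add_distrib, sum_ite_eq', sum_ite_eq', ← card_filter,
      card_interval (a + b - c + 1) (a + b - c + 1 + z) (by
        rcases Nat.eq_zero_or_pos b with hb | hb
        · have h0 := h0 hb; omega
        · have h1 := h1 hb; omega)]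
    simp only [mem_univ, if_true]
    omega
  · intro i j hij hji
    unfold BA at hij hji
    rcases Nat.eq_zero_or_pos b with hb | hb
    · have h0 := h0 hb; omega
    · have h1 := h1 hb; omega

lemma irr_BA (hn : 7 ≤ n) (hba : b ≤ a) (hcb : c ≤ b)
    (h1 : 1 ≤ b → a + b - c + 1 + 2 * z + 1 ≤ n) (h0 : b = 0 → a + 1 + 2 * z ≤ n) :
    ∀ i, ¬ BA n a b c z i i := by
  intro i hi
  unfold BA at hi
  rcases Nat.eq_zero_or_pos b with hb | hb
  · have h0 := h0 hb; omega
  · have h1 := h1 hb; omega

lemma triFree_BA (hn : 7 ≤ n) (hba : b ≤ a) (hcb : c ≤ b)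
    (h1 : 1 ≤ b → a + b - c + 1 + 2 * z + 1 ≤ n) (h0 : b = 0 → a + 1 + 2 * z ≤ n) :
    TriFree (EB n (BA n a b c z)) := by
  intro u v w huv hvw huw e1 e2 e3
  rw [mem_EB] at e1 e2 e3
  have k1 : u.val ≠ v.val := fun h => huv (Fin.ext h)
  have k2 : v.val ≠ w.val := fun h => hvw (Fin.ext h)
  have k3 : u.val ≠ w.val := fun h => huw (Fin.ext h)
  have := u.isLt
  have := v.isLt
  have := w.isLt
  unfold BA at e1 e2 e3
  rcases Nat.eq_zero_or_pos b with hb | hb
  · have h0 := h0 hb; omega
  · have h1 := h1 hb; omega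

/-- a graph in which the two given vertices have few neighbours -/
lemma exists_common (E : Finset (Finset (Fin n))) (u v : Fin n) (h : dg E u + dg E v + 2 < n) :
    ∃ w, w ≠ u ∧ w ≠ v ∧ ({u, w} : Finset (Fin n)) ∉ E ∧ ({v, w} : Finset (Fin n)) ∉ E := by
  by_contra hcon
  push Not at hcon
  have hsub : (univ : Finset (Fin n)) ⊆ {u, v} ∪ (univ.filter
      (fun w => w ≠ u ∧ ({u, w} : Finset (Fin n)) ∈ E)) ∪ (univ.filter
      (fun w => w ≠ v ∧ ({v, w} : Finset (Fin n)) ∈ E)) := by
    intro w _
    simp only [mem_union, mem_insert, mem_singleton, mem_filter, mem_univ, true_and]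
    by_cases h1 : w = u
    · exact Or.inl (Or.inl (Or.inl h1))
    · by_cases h2 : w = v
      · exact Or.inl (Or.inl (Or.inr h2))
      · by_cases h3 : ({u, w} : Finset (Fin n)) ∈ E
        · exact Or.inl (Or.inr ⟨h1, h3⟩)
        · exact Or.inr ⟨h2, hcon w h1 h2 h3⟩
  have h1 := card_le_card hsub
  have h2 := card_union_le ({u, v} ∪ (univ.filter
      (fun w => w ≠ u ∧ ({u, w} : Finset (Fin n)) ∈ E))) (univ.filter
      (fun w => w ≠ v ∧ ({v, w} : Finset (Fin n)) ∈ E))
  have h3 := card_union_le ({u, v} : Finset (Fin n)) (univ.filter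
      (fun w => w ≠ u ∧ ({u, w} : Finset (Fin n)) ∈ E))
  have h4 : ({u, v} : Finset (Fin n)).card ≤ 2 := card_le_two
  rw [card_univ, Fintype.card_fin] at h1
  unfold dg at h
  omega

lemma dg_le_two (hn : 7 ≤ n) (hba : b ≤ a) (hcb : c ≤ b)
    (h1 : 1 ≤ b → a + b - c + 1 + 2 * z + 1 ≤ n) (h0 : b = 0 → a + 1 + 2 * z ≤ n)
    (v : Fin n) (hv0 : v.val ≠ 0) (hvn : b = 0 ∨ v.val ≠ n - 1) :
    dg (EB n (BA n a b c z)) v ≤ 2 := by
  rw [dg_EB]
  have hsub : univ.filter (fun w : Fin n => w ≠ v ∧ (BA n a b c z v w ∨ BA n a b c z w v)) ⊆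
      {⟨0, by omega⟩} ∪ univ.filter (fun w : Fin n => w.val ≠ 0 ∧ w ≠ v ∧
        (BA n a b c z v w ∨ BA n a b c z w v)) := by
    intro w hw
    simp only [mem_filter, mem_univ, true_and, mem_union, mem_singleton] at hw ⊢
    by_cases h : w.val = 0
    · exact Or.inl (Fin.ext h)
    · exact Or.inr ⟨h, hw⟩
  have h2 : (univ.filter (fun w : Fin n => w.val ≠ 0 ∧ w ≠ v ∧
        (BA n a b c z v w ∨ BA n a b c z w v))).card ≤ 1 := by
    rw [card_le_one]
    intro x hx y hy
    simp only [mem_filter, mem_univ, true_and] at hx hy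
    obtain ⟨hx0, hxv, hx⟩ := hx
    obtain ⟨hy0, hyv, hy⟩ := hy
    unfold BA at hx hy
    have := x.isLt
    have := y.isLt
    have := v.isLt
    refine Fin.ext ?_
    rcases Nat.eq_zero_or_pos b with hb | hb
    · have h0 := h0 hb
      omega
    · have h1 := h1 hb
      omega
  have h3 := card_le_card hsub
  have h4 := card_union_le ({⟨0, by omega⟩} : Finset (Fin n)) (univ.filter
    (fun w : Fin n => w.val ≠ 0 ∧ w ≠ v ∧ (BA n a b c z v w ∨ BA n a b c z w v)))
  rw [card_singleton] at h4
  omega

lemma extends_BA (hn : 7 ≤ n) (hba : b ≤ a) (hcb : c ≤ b)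
    (h1 : 1 ≤ b → a + b - c + 1 + 2 * z + 1 ≤ n) (h0 : b = 0 → a + 1 + 2 * z ≤ n)
    (hP1 : 1 ≤ b → a + b + 3 ≤ n + c)
    (hP0 : b = 0 → a + 2 ≠ n ∧ ¬ (a + 3 = n ∧ 1 ≤ z)) :
    Extends (EB n (BA n a b c z)) := by
  -- a symmetric reduction
  have main : ∀ u v : Fin n, u ≠ v → ¬ (BA n a b c z u v ∨ BA n a b c z v u) →
      (u.val = 0 ∨ (v.val ≠ 0 ∧ (u.val = n - 1 ∧ 1 ≤ b)) ∨
        (u.val ≠ 0 ∧ v.val ≠ 0 ∧ (b = 0 ∨ u.val ≠ n - 1) ∧ (b = 0 ∨ v.val ≠ n - 1))) →
      ∃ w, w ≠ u ∧ w ≠ v ∧ ({u, w} : Finset (Fin n)) ∉ EB n (BA n a b c z) ∧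
        ({v, w} : Finset (Fin n)) ∉ EB n (BA n a b c z) := by
    intro u v huv hnb hcase
    have hul := u.isLt
    have hvl := v.isLt
    have hne : u.val ≠ v.val := fun h => huv (Fin.ext h)
    -- a general way to produce the witness
    have wit : ∀ w : ℕ, ∀ hw : w < n, w ≠ u.val → w ≠ v.val →
        ¬ (BA n a b c z u w ∨ BA n a b c z w u) → ¬ (BA n a b c z v w ∨ BA n a b c z w v) →
        ∃ w, w ≠ u ∧ w ≠ v ∧ ({u, w} : Finset (Fin n)) ∉ EB n (BA n a b c z) ∧
        ({v, w} : Finset (Fin n)) ∉ EB n (BA n a b c z) := by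
      intro w hw k1 k2 k3 k4
      refine ⟨⟨w, hw⟩, fun h => k1 (congrArg Fin.val h), fun h => k2 (congrArg Fin.val h), ?_, ?_⟩
      · rw [mem_EB]; exact k3
      · rw [mem_EB]; exact k4
    rcases Nat.eq_zero_or_pos b with hb | hb
    · have h0 := h0 hb
      have hP0 := hP0 hb
      have hc : c = 0 := by omega
      subst hb; subst hc
      rcases hcase with hu | ⟨hv, hu⟩ | ⟨hu, hv, _, _⟩
      · -- u = 0
        by_cases q1 : a + 1 < n ∧ a + 1 ≠ v.val ∧
            ¬ (BA n a 0 0 z v (a + 1 : ℕ) ∨ BA n a 0 0 z (a + 1 : ℕ) v)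
        · refine wit (a + 1) q1.1 (by omega) q1.2.1 ?_ q1.2.2
          unfold BA at hnb ⊢; omega
        · by_cases q2 : a + 2 < n ∧ a + 2 ≠ v.val ∧
            ¬ (BA n a 0 0 z v (a + 2 : ℕ) ∨ BA n a 0 0 z (a + 2 : ℕ) v)
          · refine wit (a + 2) q2.1 (by omega) q2.2.1 ?_ q2.2.2
            unfold BA at hnb ⊢; omega
          · refine wit (a + 3) ?_ ?_ ?_ ?_ ?_
            all_goals unfold BA at *; omega
      · omega
      · have d1 := dg_le_two (z := z) hn hba hcb (fun h => by omega) (fun _ => by omega) u hu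
          (Or.inl rfl)
        have d2 := dg_le_two (z := z) hn hba hcb (fun h => by omega) (fun _ => by omega) v hv
          (Or.inl rfl)
        exact exists_common _ u v (by omega)
    · have h1' := h1 hb
      have hP1 := hP1 hb
      rcases hcase with hu | ⟨hv, hu⟩ | ⟨hu, hv, hun, hvn⟩
      · by_cases q1 : v.val = n - 1 ∨ (a < v.val ∧ v.val ≤ a + b - c)
        · refine wit (a + b - c + 1) ?_ ?_ ?_ ?_ ?_
          all_goals unfold BA at *; omega
        · refine wit (n - 1) ?_ ?_ ?_ ?_ ?_
          all_goals unfold BA at *; omega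
      · by_cases q1 : 1 ≤ v.val ∧ v.val ≤ a
        · refine wit (a + b - c + 1) ?_ ?_ ?_ ?_ ?_
          all_goals unfold BA at *; omega
        · refine wit 0 ?_ ?_ ?_ ?_ ?_
          all_goals unfold BA at *; omega
      · have d1 := dg_le_two hn hba hcb h1 h0 u hu hun
        have d2 := dg_le_two hn hba hcb h1 h0 v hv hvn
        exact exists_common _ u v (by omega)
  intro u v huv he
  rw [mem_EB] at he
  by_cases hu : u.val = 0
  · exact main u v huv he (Or.inl hu)
  · by_cases hv : v.val = 0
    · obtain ⟨w, k1, k2, k3, k4⟩ := main v u (Ne.symm huv) (by tauto) (Or.inl hv)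
      exact ⟨w, k2, k1, k4, k3⟩
    · by_cases hun : u.val = n - 1 ∧ 1 ≤ b
      · exact main u v huv he (Or.inr (Or.inl ⟨hv, hun⟩))
      · by_cases hvn : v.val = n - 1 ∧ 1 ≤ b
        · obtain ⟨w, k1, k2, k3, k4⟩ := main v u (Ne.symm huv) (by tauto)
            (Or.inr (Or.inl ⟨hu, hvn⟩))
          exact ⟨w, k2, k1, k4, k3⟩
        · exact main u v huv he (Or.inr (Or.inr ⟨hu, hv, by omega, by omega⟩))

/-- realisation of a value by two stars and a matching -/
lemma inS_BA (hn : 7 ≤ n) (hba : b ≤ a) (hcb : c ≤ b)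
    (h1 : 1 ≤ b → a + b - c + 1 + 2 * z + 1 ≤ n) (h0 : b = 0 → a + 1 + 2 * z ≤ n)
    (hP1 : 1 ≤ b → a + b + 3 ≤ n + c)
    (hP0 : b = 0 → a + 2 ≠ n ∧ ¬ (a + 3 = n ∧ 1 ≤ z)) :
    InS n 2 ((n.choose 3 : ℤ) - ((n : ℤ) - 3) * (a + b + z) + (a.choose 2 + b.choose 2 + c)) := by
  have h := inS_of_graph (by omega) _ (EB_card2 _ (irr_BA hn hba hcb h1 h0))
    (triFree_BA hn hba hcb h1 h0) (extends_BA hn hba hcb h1 h0 hP1 hP0)
  have hs := sum_BA hn hba hcb h1 h0
  have hc := card_BA hn hba hcb h1 h0
  have hs' : ∑ v : Fin n, ((dg (EB n (BA n a b c z)) v).choose 2 : ℤ) =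
      (a.choose 2 : ℤ) + b.choose 2 + c := by exact_mod_cast hs
  rw [hs', hc] at h
  push_cast at h
  exact h

end Stars

/-! ### A path -/

section Path

/-- a path with `h` edges -/
def BP (h i j : ℕ) : Prop := i < h ∧ j = i + 1

instance (h : ℕ) : DecidableRel (BP h) := by
  intro i j; unfold BP; infer_instance

variable {n h : ℕ}

lemma sum_BP (hn : n = 2 * h + 1) :
    ∑ v : Fin n, ((dg (EB n (BP h)) v).choose 2) = h - 1 := by
  have key : ∀ v : Fin n, (dg (EB n (BP h)) v).choose 2 =
      (if 1 ≤ v.val ∧ v.val < h then 1 else 0) := by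
    intro v
    rw [dg_EB]
    by_cases hv : 1 ≤ v.val ∧ v.val < h
    · rw [if_pos hv]
      have : univ.filter (fun w : Fin n => w ≠ v ∧ (BP h v w ∨ BP h w v)) =
          {⟨v.val - 1, by omega⟩, ⟨v.val + 1, by omega⟩} := by
        ext w
        simp only [mem_filter, mem_univ, true_and, mem_insert, mem_singleton, Fin.ext_iff]
        simp only [BP]
        have := w.isLt
        constructor
        · rintro ⟨h, h'⟩
          omega
        · rintro (h | h)
          · refine ⟨fun h' => ?_, ?_⟩
            · omega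
            · right; omega
          · refine ⟨fun h' => ?_, ?_⟩
            · omega
            · left; omega
      rw [this, card_pair (by simp only [ne_eq, Fin.mk.injEq]; omega)]
      simp
    · rw [if_neg hv]
      have hle : (univ.filter (fun w : Fin n => w ≠ v ∧ (BP h v w ∨ BP h w v))).card ≤ 1 := by
        rw [card_le_one]
        intro x hx y hy
        simp only [mem_filter, mem_univ, true_and] at hx hy
        simp only [BP] at hx hy
        refine Fin.ext ?_
        omega
      interval_cases hq : (univ.filter (fun w : Fin n => w ≠ v ∧ (BP h v w ∨ BP h w v))).card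
      · simp
      · simp
  simp_rw [key]
  rw [← card_filter, card_interval 1 h (by omega)]

lemma card_BP (hn : n = 2 * h + 1) : (EB n (BP h)).card = h := by
  rw [card_EB]
  · have key : ∀ u : Fin n, (univ.filter (fun v : Fin n => BP h u v)).card =
        (if 0 ≤ u.val ∧ u.val < h then 1 else 0) := by
      intro u
      by_cases hu : 0 ≤ u.val ∧ u.val < h
      · rw [if_pos hu]
        have : univ.filter (fun w : Fin n => BP h u w) = {⟨u.val + 1, by omega⟩} := by
          ext w
          simp only [mem_filter, mem_univ, true_and, mem_singleton, Fin.ext_iff]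
          simp only [BP]
          omega
        rw [this]; simp
      · rw [if_neg hu]
        have : univ.filter (fun w : Fin n => BP h u w) = ∅ := by
          ext w
          simp only [mem_filter, mem_univ, true_and, notMem_empty, iff_false]
          simp only [BP]
          omega
        rw [this]; simp
    simp_rw [key]
    rw [← card_filter, card_interval 0 h (by omega)]
    omega
  · intro i j hij hji
    unfold BP at hij hji
    omega

lemma inS_BP (hh : 3 ≤ h) (hn : n = 2 * h + 1) :
    InS n 2 ((n.choose 3 : ℤ) - ((n : ℤ) - 3) * h + (h - 1)) := by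
  have hT : TriFree (EB n (BP h)) := by
    intro u v w huv hvw huw e1 e2 e3
    rw [mem_EB] at e1 e2 e3
    have k1 : u.val ≠ v.val := fun h => huv (Fin.ext h)
    have k2 : v.val ≠ w.val := fun h => hvw (Fin.ext h)
    have k3 : u.val ≠ w.val := fun h => huw (Fin.ext h)
    unfold BP at e1 e2 e3
    omega
  have hd : ∀ v : Fin n, dg (EB n (BP h)) v ≤ 2 := by
    intro v
    rw [dg_EB]
    have hsub : univ.filter (fun w : Fin n => w ≠ v ∧ (BP h v w ∨ BP h w v)) ⊆
        univ.filter (fun w : Fin n => v.val - 1 ≤ w.val ∧ w.val < v.val + 2 ∧ w ≠ v) := by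
      intro w hw
      simp only [mem_filter, mem_univ, true_and] at hw ⊢
      obtain ⟨h1, h2⟩ := hw
      unfold BP at h2
      exact ⟨by omega, by omega, h1⟩
    refine le_trans (card_le_card hsub) ?_
    have h2 : (univ.filter (fun w : Fin n => v.val - 1 ≤ w.val ∧ w.val < v.val + 2 ∧ w ≠ v)).card
        ≤ 2 := by
      have h3 : (univ.filter (fun w : Fin n => v.val - 1 ≤ w.val ∧ w.val < v.val + 2 ∧ w ≠ v)).map
          Fin.valEmbedding ⊆ {v.val - 1, v.val + 1} := by
        intro x hx
        simp only [mem_map, mem_filter, mem_univ, true_and, Fin.valEmbedding_apply] at hx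
        obtain ⟨w, ⟨h1, h2, h3⟩, rfl⟩ := hx
        have : w.val ≠ v.val := fun h => h3 (Fin.ext h)
        simp only [mem_insert, mem_singleton]
        omega
      rw [← card_map Fin.valEmbedding]
      exact le_trans (card_le_card h3) card_le_two
    exact h2
  have hX : Extends (EB n (BP h)) := by
    intro u v _ _
    have h1 := hd u
    have h2 := hd v
    exact exists_common _ u v (by omega)
  have hE : ∀ e ∈ EB n (BP h), e.card = 2 := EB_card2 _ (fun i hi => by unfold BP at hi; omega)
  have hfin := inS_of_graph (by omega) _ hE hT hX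
  have hs := sum_BP hn
  have hs' : ∑ v : Fin n, ((dg (EB n (BP h)) v).choose 2 : ℤ) = (h : ℤ) - 1 := by
    have : ∑ v : Fin n, ((dg (EB n (BP h)) v).choose 2 : ℤ) = ((h - 1 : ℕ) : ℤ) := by
      exact_mod_cast hs
    rw [this]; omega
  rw [hs', card_BP hn] at hfin
  exact hfin

end Path

/-! ### The arithmetic for `l = 2` -/

/-- The threshold `T(n,l)`. -/
def T (n l : ℕ) : ℤ :=
  (n.choose (l + 1) : ℤ) - ((n : ℤ) - l - 1) * ⌈((n : ℚ) - l) / 2⌉

/-- `m` has form (G) for `(n,l)`. -/
def FormG (n l : ℕ) (m : ℤ) : Prop :=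
  ∃ t a b c : ℤ, 1 ≤ t ∧ t ≤ (n : ℤ) - l + 1 ∧ a ≥ b ∧ b ≥ c ∧ c ≥ 0 ∧ 1 ≤ a + b ∧ a + b ≤ t ∧
    m = (n.choose (l + 1) : ℤ) - ((n : ℤ) - l - 1) * t + a * (a - 1) / 2 + b * (b - 1) / 2 + c

lemma two_mul_choose (a : ℕ) : (2 : ℤ) * (a.choose 2 : ℤ) = a * (a - 1) := by
  have h := Nat.choose_two_right a
  have h2 : 2 ∣ a * (a - 1) := (Nat.even_mul_pred_self a).two_dvd
  have h3 : 2 * (a.choose 2) = a * (a - 1) := by rw [h]; omega
  rcases Nat.eq_zero_or_pos a with h0 | h0
  · subst h0; simp
  · have : ((a - 1 : ℕ) : ℤ) = (a : ℤ) - 1 := by omega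
    rw [← this]
    exact_mod_cast h3

lemma arith_two (n : ℕ) (hn : 7 ≤ n) (t a b c : ℕ) (ht2 : t + 1 ≤ n) (hba : b ≤ a)
    (hcb : c ≤ b) (hab : 1 ≤ a + b) (habt : a + b ≤ t)
    (H : ℤ) (hH1 : 2 * H ≤ (n : ℤ) - 1) (hH2 : (n : ℤ) - 2 ≤ 2 * H)
    (hgt : ((n : ℤ) - 3) * (t - H) < (a.choose 2 + b.choose 2 + c : ℤ)) :
    InS n 2 ((n.choose 3 : ℤ) - ((n : ℤ) - 3) * t + (a.choose 2 + b.choose 2 + c)) := by
  have ea := two_mul_choose a
  have eb := two_mul_choose b
  -- doubled inequality
  have hdbl : ((n : ℤ) - 3) * (2 * t - n + 1) < a * (a - 1) + b * (b - 1) + 2 * c := by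
    have h1 : ((n : ℤ) - 3) * (2 * t - n + 1) ≤ ((n : ℤ) - 3) * (2 * (t - H)) := by
      apply mul_le_mul_of_nonneg_left <;> omega
    have h2 : ((n : ℤ) - 3) * (2 * (t - H)) = 2 * (((n : ℤ) - 3) * (t - H)) := by ring
    linarith
  have hnz : (7 : ℤ) ≤ n := by exact_mod_cast hn
  have haz : (0 : ℤ) ≤ a := by positivity
  have hbz : (0 : ℤ) ≤ b := by positivity
  have hcz : (0 : ℤ) ≤ c := by positivity
  have hbaz : (b : ℤ) ≤ a := by exact_mod_cast hba
  have hcbz : (c : ℤ) ≤ b := by exact_mod_cast hcb
  have htz : (t : ℤ) + 1 ≤ n := by exact_mod_cast ht2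
  have habtz : (a : ℤ) + b ≤ t := by exact_mod_cast habt
  obtain ⟨z, hz⟩ : ∃ z, t = a + b + z := ⟨t - (a + b), by omega⟩
  rcases Nat.eq_zero_or_pos b with hb | hb
  · -- one star
    subst hb
    have hc0 : c = 0 := by omega
    subst hc0
    have ha1 : 1 ≤ a := by omega
    have ha1z : (1 : ℤ) ≤ a := by exact_mod_cast ha1
    -- fit
    have hfit : a + 1 + 2 * z ≤ n := by
      by_contra hcon
      have hcon' : (n : ℤ) < a + 1 + 2 * z := by
        have : n < a + 1 + 2 * z := by omega
        exact_mod_cast this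
      have htz' : (t : ℤ) = a + z := by have := hz; omega
      have h1 : (a : ℤ) + 1 ≤ 2 * t - n + 1 := by omega
      have h2 : ((n : ℤ) - 3) * (a + 1) ≤ ((n : ℤ) - 3) * (2 * t - n + 1) :=
        mul_le_mul_of_nonneg_left h1 (by omega)
      have h3 : (a : ℤ) ≤ n - 2 := by omega
      push_cast at hdbl
      nlinarith
    by_cases hspec : a + 2 = n
    · -- the path
      have hzz : z = 0 := by omega
      have hta : t = n - 2 := by omega
      -- n is odd
      have hta' : (t : ℤ) = n - 2 := by omega
      have haa : (a : ℤ) = n - 2 := by omega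
      have hodd : 2 * H = (n : ℤ) - 1 := by
        by_contra hcon
        have hHe : 2 * H = (n : ℤ) - 2 := by omega
        have h1 : ((n : ℤ) - 3) * (2 * (t - H)) < a * (a - 1) := by
          have h2 : ((n : ℤ) - 3) * (2 * (t - H)) = 2 * (((n : ℤ) - 3) * (t - H)) := by ring
          rw [h2]
          push_cast at hgt
          simp only [Nat.choose_zero_succ, Nat.cast_zero, add_zero] at hgt
          linarith
        have h3 : 2 * ((t : ℤ) - H) = n - 2 := by omega
        rw [h3, haa] at h1
        nlinarith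
      obtain ⟨h, hh⟩ : ∃ h : ℕ, n = 2 * h + 1 := ⟨(n - 1) / 2, by omega⟩
      have hp := inS_BP (n := n) (h := h) (by omega) hh
      have hval : (n.choose 3 : ℤ) - ((n : ℤ) - 3) * h + (h - 1) =
          (n.choose 3 : ℤ) - ((n : ℤ) - 3) * t + (a.choose 2 + (0 : ℕ).choose 2 + (0 : ℕ)) := by
        simp only [Nat.choose_zero_succ, Nat.cast_zero, add_zero]
        have h1 : (n : ℤ) = 2 * h + 1 := by exact_mod_cast hh
        have h2 : (2 : ℤ) * (a.choose 2 : ℤ) = (n - 2) * (n - 3) := by
          rw [ea, haa]; ring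
        rw [hta']
        have h3 : (2 : ℤ) * (-((n : ℤ) - 3) * h + (h - 1)) =
            2 * (-((n : ℤ) - 3) * (n - 2) + (a.choose 2 : ℤ)) := by
          rw [mul_add 2 (-((n : ℤ) - 3) * (n - 2)), h2, h1]; ring
        linarith
      rw [hval] at hp
      exact hp
    · have hnot : ¬ (a + 3 = n ∧ 1 ≤ z) := by
        rintro ⟨h1, h2⟩
        have htz' : (t : ℤ) = a + z := by omega
        have h3 : (a : ℤ) = n - 3 := by omega
        have h4 : (n : ℤ) - 3 ≤ 2 * t - n + 1 := by omega
        have h5 : ((n : ℤ) - 3) * (n - 3) ≤ ((n : ℤ) - 3) * (2 * t - n + 1) :=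
          mul_le_mul_of_nonneg_left h4 (by omega)
        rw [h3] at hdbl
        push_cast at hdbl
        nlinarith
      have := inS_BA (n := n) (a := a) (b := 0) (c := 0) (z := z) hn (by omega) (by omega)
        (fun h => by omega) (fun _ => hfit) (fun h => by omega) (fun _ => ⟨hspec, hnot⟩)
      rw [hz]
      push_cast at this ⊢
      exact this
  · -- two stars
    have hb1z : (1 : ℤ) ≤ b := by exact_mod_cast hb
    have htz' : (t : ℤ) = a + b + z := by exact_mod_cast hz
    have hfit : a + b - c + 1 + 2 * z + 1 ≤ n := by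
      by_contra hcon
      have hcon' : (n : ℤ) < a + b - c + 1 + 2 * z + 1 := by omega
      -- w = a+b+c ≤ 2t+1-n
      have h1 : (a : ℤ) + b + c ≤ 2 * t - n + 1 := by omega
      have h2 : ((n : ℤ) - 3) * (a + b + c) ≤ ((n : ℤ) - 3) * (2 * t - n + 1) :=
        mul_le_mul_of_nonneg_left h1 (by omega)
      have h3 : (a : ℤ) - 1 ≤ n - 3 := by omega
      have h4 : (b : ℤ) - 1 ≤ n - 3 := by omega
      have h5 : (a : ℤ) * (a - 1) ≤ a * (n - 3) := mul_le_mul_of_nonneg_left h3 haz
      have h6 : (b : ℤ) * (b - 1) ≤ b * (n - 3) := mul_le_mul_of_nonneg_left h4 hbz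
      have h7 : (2 : ℤ) * c ≤ (n - 3) * c := mul_le_mul_of_nonneg_right (by omega) hcz
      nlinarith
    have hP : a + b + 3 ≤ n + c := by
      by_contra hcon
      have h1 : a + b + 2 = n + c ∧ z = 0 := by omega
      obtain ⟨h1, h2⟩ := h1
      have h3 : c ≤ 1 := by omega
      have h4 : (n : ℤ) = a + b + 2 - c := by omega
      have h5 : (t : ℤ) = a + b := by omega
      rw [h4, h5] at hdbl
      have h6 : c = 0 ∨ c = 1 := by omega
      rcases h6 with rfl | rfl
      · push_cast at hdbl
        nlinarith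
      · push_cast at hdbl
        have h7 : (6 : ℤ) ≤ a + b := by omega
        rcases Nat.lt_or_ge b 2 with hb2 | hb2
        · have : b = 1 := by omega
          subst this
          push_cast at hdbl
          nlinarith
        · have hb2z : (2 : ℤ) ≤ b := by exact_mod_cast hb2
          have h8 : (a : ℤ) * 2 ≤ a * b := mul_le_mul_of_nonneg_left hb2z haz
          have h9 : (a : ℤ) * b = b * a := mul_comm _ _
          linarith
    have := inS_BA (n := n) (a := a) (b := b) (c := c) (z := z) hn hba hcb
      (fun _ => hfit) (fun h => by omega) (fun _ => hP) (fun h => by omega)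
    rw [hz]
    push_cast at this ⊢
    exact this

/-! ### Small orders -/

/-- decidable version of membership in `S(n,2)` for small `n` -/
def GoodFam (n l : ℕ) (𝒜 : Finset (Finset (Fin n))) : Prop :=
  (∀ A ∈ 𝒜, ∀ B ∈ 𝒜, A ⊆ B → A = B) ∧
    (∀ X : Finset (Fin n), X ∉ 𝒜 → ∃ A ∈ 𝒜, A ⊆ X ∨ X ⊆ A) ∧
    (∀ A ∈ 𝒜, A.card = l ∨ A.card = l + 1)

instance (n l : ℕ) (𝒜 : Finset (Finset (Fin n))) : Decidable (GoodFam n l 𝒜) := by
  unfold GoodFam; infer_instance

lemma inS_of_good {n l : ℕ} (𝒜 : Finset (Finset (Fin n))) (h : GoodFam n l 𝒜) :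
    InS n l 𝒜.card :=
  ⟨𝒜, fun A hA B hB hne hsub => hne (h.1 A hA B hB hsub), h.2.1, h.2.2, rfl⟩

/-- the antichain of a graph -/
def fam (n : ℕ) (E : Finset (Finset (Fin n))) : Finset (Finset (Fin n)) :=
  E ∪ (powersetCard 3 univ).filter (fun T => ∀ e ∈ E, ¬ e ⊆ T)

lemma five_eight : InS 5 2 8 := by
  have h : GoodFam 5 2 (fam 5 {{0, 1}}) := by decide +kernel
  have h2 := inS_of_good _ h
  have h3 : (fam 5 {{0, 1}}).card = 8 := by decide +kernel
  rw [h3] at h2; exact h2

lemma five_seven : InS 5 2 7 := by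
  have h : GoodFam 5 2 (fam 5 {{0, 1}, {0, 2}}) := by decide +kernel
  have h2 := inS_of_good _ h
  have h3 : (fam 5 {{0, 1}, {0, 2}}).card = 7 := by decide +kernel
  rw [h3] at h2; exact h2

lemma six_seventeen : InS 6 2 17 := by
  have h : GoodFam 6 2 (fam 6 {{0, 1}}) := by decide +kernel
  have h2 := inS_of_good _ h
  have h3 : (fam 6 {{0, 1}}).card = 17 := by decide +kernel
  rw [h3] at h2; exact h2

lemma six_fifteen : InS 6 2 15 := by
  have h : GoodFam 6 2 (fam 6 {{0, 1}, {0, 2}}) := by decide +kernel
  have h2 := inS_of_good _ h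
  have h3 : (fam 6 {{0, 1}, {0, 2}}).card = 15 := by decide +kernel
  rw [h3] at h2; exact h2

lemma half_choose (a : ℕ) : (a : ℤ) * ((a : ℤ) - 1) / 2 = (a.choose 2 : ℤ) := by
  rw [← two_mul_choose]
  exact Int.mul_ediv_cancel_left _ (by norm_num)

lemma ceil_bounds (x : ℤ) : x ≤ 2 * ⌈(x : ℚ) / 2⌉ ∧ 2 * ⌈(x : ℚ) / 2⌉ ≤ x + 1 := by
  have h1 := Int.le_ceil ((x : ℚ) / 2)
  have h2 := Int.ceil_lt_add_one ((x : ℚ) / 2)
  constructor
  · have : (x : ℚ) ≤ 2 * (⌈(x : ℚ) / 2⌉ : ℚ) := by linarith
    exact_mod_cast this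
  · have : 2 * (⌈(x : ℚ) / 2⌉ : ℚ) < x + 2 := by linarith
    have h3 : 2 * ⌈(x : ℚ) / 2⌉ < x + 2 := by exact_mod_cast this
    omega

theorem case_two (n : ℕ) (hn : 3 ≤ n) (m : ℤ) (hG : FormG n 2 m) (hT : T n 2 < m)
    (hm : m < (n.choose 3 : ℤ)) : InS n 2 m := by
  obtain ⟨t, a, b, c, ht1, ht2, hab, hbc, hc, h1ab, habt, hval⟩ := hG
  have hceil := ceil_bounds ((n : ℤ) - 2)
  set H : ℤ := ⌈(((n : ℤ) - 2 : ℤ) : ℚ) / 2⌉ with hH
  have hTH : T n 2 = (n.choose 3 : ℤ) - ((n : ℤ) - 2 - 1) * H := by
    unfold T
    rw [hH]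
    push_cast
    norm_num
  rw [hTH] at hT
  lift c to ℕ using hc
  lift b to ℕ using (by omega)
  lift a to ℕ using (by omega)
  lift t to ℕ using (by omega)
  rw [half_choose, half_choose] at hval
  simp only [Nat.cast_ofNat] at hval ht2
  have hval' : m = (n.choose 3 : ℤ) - ((n : ℤ) - 3) * t + (a.choose 2 + b.choose 2 + c) := by
    rw [hval]; norm_num; ring
  rcases Nat.lt_or_ge n 7 with hlt | hge
  · -- small cases
    have hba : b ≤ a := by omega
    have hcb : c ≤ b := by omega
    have ht : t ≤ 5 := by omega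
    have ha : a ≤ 5 := by omega
    have hb : b ≤ 5 := by omega
    obtain ⟨h1, h2⟩ := hceil
    interval_cases n
    · -- n = 3
      exfalso
      have e : ((3 : ℕ).choose 3 : ℤ) = 1 := by decide
      rw [e] at hval' hm
      have : (0 : ℤ) ≤ a.choose 2 + b.choose 2 + c := by positivity
      push_cast at hval'
      linarith
    · -- n = 4
      exfalso
      have e : ((4 : ℕ).choose 3 : ℤ) = 4 := by decide
      rw [e] at hval' hm hT
      push_cast at *
      have : H = 1 := by omega
      rw [this] at hT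
      omega
    · -- n = 5
      have e : ((5 : ℕ).choose 3 : ℤ) = 10 := by decide
      rw [e] at hval' hm hT
      push_cast at *
      have hH2 : H = 2 := by omega
      rw [hH2] at hT
      have hmm : m = 7 ∨ m = 8 := by
        interval_cases a <;> interval_cases b <;> norm_num [Nat.choose] at hval' <;> omega
      rcases hmm with rfl | rfl
      · exact five_seven
      · exact five_eight
    · -- n = 6
      have e : ((6 : ℕ).choose 3 : ℤ) = 20 := by decide
      rw [e] at hval' hm hT
      push_cast at *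
      have hH2 : H = 2 := by omega
      rw [hH2] at hT
      have hmm : m = 15 ∨ m = 17 := by
        interval_cases a <;> interval_cases b <;> norm_num [Nat.choose] at hval' <;> omega
      rcases hmm with rfl | rfl
      · exact six_fifteen
      · exact six_seventeen
  · rw [hval']
    refine arith_two n hge t a b c (by omega) (by omega) (by omega) (by omega) (by omega)
      H (by omega) (by omega) ?_
    have : ((n : ℤ) - 3) * (t - H) = ((n : ℤ) - 3) * t - ((n : ℤ) - 2 - 1) * H := by ring
    rw [this]
    linarith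

/-! ### Lifting -/

section Lift

variable {n : ℕ}

/-- copy of a set of `Fin n` in `Fin (n+1)` -/
def up (A : Finset (Fin n)) : Finset (Fin (n + 1)) := A.map Fin.castSuccEmb

/-- copy with the last element added -/
def up' (A : Finset (Fin n)) : Finset (Fin (n + 1)) := insert (Fin.last n) (up A)

lemma last_notMem_up (A : Finset (Fin n)) : Fin.last n ∉ up A := by
  intro h
  simp only [up, mem_map] at h
  obtain ⟨x, _, hx⟩ := h
  exact (Fin.castSucc_lt_last x).ne hx

lemma up_subset (A B : Finset (Fin n)) : up A ⊆ up B ↔ A ⊆ B := by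
  unfold up; exact map_subset_map

lemma up'_subset (A B : Finset (Fin n)) : up' A ⊆ up' B ↔ A ⊆ B := by
  unfold up'
  rw [insert_subset_insert_iff (last_notMem_up A), up_subset]

lemma up_inj : Function.Injective (up : Finset (Fin n) → Finset (Fin (n + 1))) := by
  intro A B h
  exact Subset.antisymm ((up_subset A B).1 (by rw [h])) ((up_subset B A).1 (by rw [h]))

lemma up'_inj : Function.Injective (up' : Finset (Fin n) → Finset (Fin (n + 1))) := by
  intro A B h
  exact Subset.antisymm ((up'_subset A B).1 (by rw [h])) ((up'_subset B A).1 (by rw [h]))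

lemma card_up (A : Finset (Fin n)) : (up A).card = A.card := by
  unfold up; exact card_map _

lemma card_up' (A : Finset (Fin n)) : (up' A).card = A.card + 1 := by
  unfold up'; rw [card_insert_of_notMem (last_notMem_up A), card_up]

lemma exists_up (X : Finset (Fin (n + 1))) : ∃ Y : Finset (Fin n), X = up Y ∨ X = up' Y := by
  refine ⟨univ.filter (fun y => y.castSucc ∈ X), ?_⟩
  by_cases h : Fin.last n ∈ X
  · right
    ext x
    unfold up' up
    simp only [mem_insert, mem_map, mem_filter, mem_univ, true_and, Fin.castSuccEmb_apply]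
    constructor
    · intro hx
      rcases Fin.eq_castSucc_or_eq_last x with ⟨y, rfl⟩ | rfl
      · exact Or.inr ⟨y, hx, rfl⟩
      · exact Or.inl rfl
    · rintro (rfl | ⟨y, hy, rfl⟩)
      · exact h
      · exact hy
  · left
    ext x
    unfold up
    simp only [mem_map, mem_filter, mem_univ, true_and, Fin.castSuccEmb_apply]
    constructor
    · intro hx
      rcases Fin.eq_castSucc_or_eq_last x with ⟨y, rfl⟩ | rfl
      · exact ⟨y, hx, rfl⟩
      · exact absurd hx h
    · rintro ⟨y, hy, rfl⟩
      exact hy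

lemma lift_inS (l : ℕ) (hl : l + 2 ≤ n) (m : ℤ) (h : InS n l m) :
    InS (n + 1) (l + 1) (m + (n.choose (l + 2) : ℤ)) := by
  obtain ⟨𝒜, hanti, hmax, hcard, hsize⟩ := h
  set P1 : Finset (Finset (Fin (n + 1))) := 𝒜.image up' with hP1
  set Q1 : Finset (Finset (Fin (n + 1))) :=
    (powersetCard (l + 2) (univ : Finset (Fin n))).image up with hQ1
  have hdisj : Disjoint P1 Q1 := by
    rw [disjoint_left]
    intro X h1 h2
    simp only [hP1, hQ1, mem_image] at h1 h2
    obtain ⟨A, _, rfl⟩ := h1
    obtain ⟨B, _, hB⟩ := h2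
    exact last_notMem_up B (by rw [hB]; exact mem_insert_self _ _)
  refine ⟨P1 ∪ Q1, ?_, ?_, ?_, ?_⟩
  · intro X hX Y hY hne hsub
    simp only [coe_union, Set.mem_union, mem_coe] at hX hY
    simp only [hP1, hQ1, mem_image, mem_powersetCard] at hX hY
    rcases hX with ⟨A, hA, rfl⟩ | ⟨A, hA, rfl⟩ <;> rcases hY with ⟨B, hB, rfl⟩ | ⟨B, hB, rfl⟩
    · exact hanti hA hB (fun e => hne (by rw [e])) ((up'_subset A B).1 hsub)
    · exact last_notMem_up B (hsub (mem_insert_self _ _))
    · have hAB : A ⊆ B := by
        intro x hx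
        have h1 : x.castSucc ∈ up' B := hsub (by
          unfold up; exact mem_map.2 ⟨x, hx, rfl⟩)
        unfold up' up at h1
        simp only [mem_insert, mem_map, Fin.castSuccEmb_apply] at h1
        rcases h1 with h1 | ⟨y, hy, h1⟩
        · exact absurd h1 (Fin.castSucc_lt_last x).ne
        · have := Fin.castSucc_injective n h1
          rw [← this]; exact hy
      have h1 := card_le_card hAB
      have h2 := hcard B hB
      omega
    · have hAB := (up_subset A B).1 hsub
      exact hne (by rw [eq_of_subset_of_card_le hAB (by omega)])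
  · intro X hX
    obtain ⟨Y, rfl | rfl⟩ := exists_up X
    · rcases Nat.lt_or_ge Y.card (l + 2) with hc | hc
      · obtain ⟨Z, h1, h2⟩ := exists_superset_card_eq (s := Y) (n := l + 2) (by omega)
          (by simpa using hl)
        refine ⟨up Z, mem_union_right _ (mem_image.2 ⟨Z, ?_, rfl⟩), Or.inr ((up_subset _ _).2 h1)⟩
        rw [mem_powersetCard]; exact ⟨subset_univ _, h2⟩
      · obtain ⟨Z, h1, h2⟩ := exists_subset_card_eq hc
        refine ⟨up Z, mem_union_right _ (mem_image.2 ⟨Z, ?_, rfl⟩), Or.inl ((up_subset _ _).2 h1)⟩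
        rw [mem_powersetCard]; exact ⟨subset_univ _, h2⟩
    · have hY : Y ∉ 𝒜 := fun h => hX (mem_union_left _ (mem_image_of_mem _ h))
      obtain ⟨A, hA, h | h⟩ := hmax Y hY
      · exact ⟨up' A, mem_union_left _ (mem_image_of_mem _ hA), Or.inl ((up'_subset _ _).2 h)⟩
      · exact ⟨up' A, mem_union_left _ (mem_image_of_mem _ hA), Or.inr ((up'_subset _ _).2 h)⟩
  · intro X hX
    rcases mem_union.1 hX with hX | hX
    · simp only [hP1, mem_image] at hX
      obtain ⟨A, hA, rfl⟩ := hX
      rw [card_up']
      have := hcard A hA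
      omega
    · simp only [hQ1, mem_image, mem_powersetCard] at hX
      obtain ⟨A, ⟨_, hA⟩, rfl⟩ := hX
      rw [card_up]
      omega
  · rw [card_union_of_disjoint hdisj, hP1, hQ1, card_image_of_injective _ up'_inj,
      card_image_of_injective _ up_inj, card_powersetCard, card_univ, Fintype.card_fin]
    push_cast
    rw [hsize]

end Lift

/-- Form (G) is sufficient for `l = 2` and `l = 3`: every integer `m` of form (G) with
`T(n,l) < m < C(n,l+1)` is the size of a maximal antichain of `B_n` with all members of size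
`l` or `l+1`. -/
theorem result (l n : ℕ) (hl : l = 2 ∨ l = 3) (hln : (l : ℤ) ≤ ⌈(n : ℚ) / 2⌉) (m : ℤ)
    (hG : FormG n l m) (hT : T n l < m) (hm : m < (n.choose (l + 1) : ℤ)) : InS n l m := by
  have hc := ceil_bounds (n : ℤ)
  have hc' : 2 * ⌈(n : ℚ) / 2⌉ ≤ (n : ℤ) + 1 := by
    have := hc.2
    push_cast at this
    exact this
  rcases hl with rfl | rfl
  · exact case_two n (by omega) m hG hT hm
  · obtain ⟨n', rfl⟩ : ∃ n', n = n' + 1 := ⟨n - 1, by omega⟩
    have hn' : 4 ≤ n' := by omega
    have hch : ((n' + 1).choose 4 : ℤ) = (n'.choose 3 : ℤ) + (n'.choose 4 : ℤ) := by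
      have := Nat.choose_succ_succ' n' 3
      exact_mod_cast this
    have h2 : InS n' 2 (m - (n'.choose 4 : ℤ)) := by
      refine case_two n' (by omega) _ ?_ ?_ ?_
      · obtain ⟨t, a, b, c, ht1, ht2, hab, hbc, hc0, h1ab, habt, hval⟩ := hG
        refine ⟨t, a, b, c, ht1, by push_cast at ht2 ⊢; linarith, hab, hbc, hc0, h1ab, habt, ?_⟩
        rw [hval]
        norm_num only [Nat.reduceAdd]
        rw [hch]
        push_cast
        ring
      · unfold T at hT ⊢
        norm_num only [Nat.reduceAdd] at hT ⊢
        rw [hch] at hT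
        have e1 : (((n' + 1 : ℕ) : ℚ) - 3) / 2 = ((n' : ℚ) - 2) / 2 := by
          push_cast; ring
        rw [e1] at hT
        push_cast at hT ⊢
        have e2 : ((n' : ℤ) + 1 - 3 - 1) = (n' : ℤ) - 2 - 1 := by ring
        rw [e2] at hT
        linarith
      · norm_num only [Nat.reduceAdd] at hm
        rw [hch] at hm
        linarith
    have h3 := lift_inS 2 (by omega) _ h2
    have e : m - (n'.choose 4 : ℤ) + (n'.choose (2 + 2) : ℤ) = m := by norm_num
    rw [e] at h3
    exact h3

end Pool.Agent.Results.MP_7d5f0f_co.FormGSufficient
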